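import Pool.Agent.Helper36.LightFin

/-!
The light-segment set of a minimiser of the Born-Infeld action with a finite signed measure as
source can have positive Lebesgue measure, in every bounded domain of dimension at least three.
-/

namespace Pool.Agent.Results.MP_2eaabb_an.LightSetPositiveMeasure

open MeasureTheory Set Filter Topology Metric
open scoped ENNReal

/-- Euclidean space of dimension `m`. -/
abbrev Euc (m : ℕ) : Type := EuclideanSpace ℝ (Fin m)

/-- A bounded domain: nonempty, open, connected and bounded. -/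
def IsBoundedDomain {m : ℕ} (Ω : Set (Euc m)) : Prop :=
  IsOpen Ω ∧ IsConnected Ω ∧ Bornology.IsBounded Ω

/-- The curve `γ`, restricted to `[0,1]`, is a piecewise affine path. -/
def IsPiecewiseAffine {m : ℕ} (γ : ℝ → Euc m) : Prop :=
  ∃ (k : ℕ) (t : Fin (k + 1) → ℝ), Monotone t ∧ t 0 = 0 ∧ t (Fin.last k) = 1 ∧
    ∀ i : Fin k, ∃ a b : Euc m, ∀ s ∈ Icc (t i.castSucc) (t i.succ), γ s = a + s • b

/-- The inner distance: infimum of the lengths of the piecewise affine paths in the closure of `Ω`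
joining the two points, with interior in `Ω`. It is infinite if there is no such path. -/
noncomputable def innerDist {m : ℕ} (Ω : Set (Euc m)) (x y : Euc m) : ℝ≥0∞ :=
  ⨅ γ ∈ {γ : ℝ → Euc m | IsPiecewiseAffine γ ∧ γ 0 = x ∧ γ 1 = y ∧
      (∀ s ∈ Icc (0 : ℝ) 1, γ s ∈ closure Ω) ∧ ∀ s ∈ Ioo (0 : ℝ) 1, γ s ∈ Ω},
    eVariationOn γ (Icc 0 1)

/-- The class of boundary data. -/
def BoundaryClass {m : ℕ} (Ω : Set (Euc m)) : Set (Euc m → ℝ) :=
  {φ | ContinuousOn φ (frontier Ω) ∧ ∀ x ∈ frontier Ω, ∀ y ∈ frontier Ω, x ≠ y →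
    ENNReal.ofReal |φ x - φ y| < innerDist Ω x y}

/-- The admissible functions: continuous representatives of the functions of class `W^{1,∞}` on `Ω`
with gradient of norm at most one almost everywhere and with boundary values `φ` along all
straight segments of `Ω` which end on the boundary. -/
def Admissible {m : ℕ} (Ω : Set (Euc m)) (φ : Euc m → ℝ) : Set (Euc m → ℝ) :=
  {u | LocallyLipschitzOn Ω u ∧ (∃ M : ℝ, ∀ x ∈ Ω, |u x| ≤ M) ∧
    (∀ᵐ x ∂(volume.restrict Ω), ‖fderiv ℝ u x‖ ≤ 1) ∧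
    ∀ x ∈ frontier Ω, ∀ v : Euc m, (∀ s ∈ Ioo (0 : ℝ) 1, x + s • v ∈ Ω) →
      Tendsto (fun s : ℝ => u (x + s • v)) (𝓝[>] 0) (𝓝 (φ x))}

/-- The integral over `Ω` of a function against a finite signed measure (Jordan decomposition). -/
noncomputable def pairing {m : ℕ} (Ω : Set (Euc m)) (ρ : SignedMeasure (Euc m))
    (v : Euc m → ℝ) : ℝ :=
  (∫ x in Ω, v x ∂ρ.toJordanDecomposition.posPart) -
    ∫ x in Ω, v x ∂ρ.toJordanDecomposition.negPart

/-- The action. -/
noncomputable def action {m : ℕ} (Ω : Set (Euc m)) (ρ : SignedMeasure (Euc m))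
    (v : Euc m → ℝ) : ℝ :=
  (∫ x in Ω, (1 - √(1 - ‖fderiv ℝ v x‖ ^ 2))) - pairing Ω ρ v

/-- `u` minimises the action among the admissible functions. -/
def IsMinimiser {m : ℕ} (Ω : Set (Euc m)) (φ : Euc m → ℝ) (ρ : SignedMeasure (Euc m))
    (u : Euc m → ℝ) : Prop :=
  u ∈ Admissible Ω φ ∧ ∀ v ∈ Admissible Ω φ, action Ω ρ u ≤ action Ω ρ v

/-- The light-segment set of `u`. -/
def lightSet {m : ℕ} (Ω : Set (Euc m)) (u : Euc m → ℝ) : Set (Euc m) :=
  closure {z | ∃ x ∈ Ω, ∃ y ∈ Ω, x ≠ y ∧ segment ℝ x y ⊆ Ω ∧ |u x - u y| = dist x y ∧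
    z ∈ segment ℝ x y}

open Pool.Agent.Helper36.Light

theorem zero_mem_boundaryClass {m : ℕ} (Ω : Set (Euc m)) :
    (fun _ => (0 : ℝ)) ∈ BoundaryClass Ω := by
  refine ⟨continuousOn_const, ?_⟩
  intro x _ y _ hxy
  rw [sub_zero, abs_zero, ENNReal.ofReal_zero]
  have h1 : edist x y ≤ innerDist Ω x y := by
    unfold innerDist
    refine le_iInf₂ fun γ hγ => ?_
    rw [← hγ.2.1, ← hγ.2.2.1]
    exact eVariationOn.edist_le γ (left_mem_Icc.2 zero_le_one) (right_mem_Icc.2 zero_le_one)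
  exact lt_of_lt_of_le (edist_pos.2 hxy) h1

theorem measurable_density {α : Type*} [MeasurableSpace α] {μ : Measure α} {G : α → ℝ}
    (hG : Integrable G μ) : ∃ G' : α → ℝ, Measurable G' ∧ Integrable G' μ ∧ G' =ᵐ[μ] G :=
  ⟨hG.1.mk G, hG.1.stronglyMeasurable_mk.measurable, hG.congr hG.1.ae_eq_mk,
    hG.1.ae_eq_mk.symm⟩

/-- the pairing with an absolutely continuous signed measure -/
theorem pairing_withDensity {m : ℕ} {Ω : Set (Euc m)} (hΩ : MeasurableSet Ω) {G : Euc m → ℝ}
    (hGm : Measurable G) (hG : Integrable G) {v : Euc m → ℝ}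
    (hv : AEStronglyMeasurable v (volume.restrict Ω)) {M : ℝ} (hM : ∀ x ∈ Ω, |v x| ≤ M) :
    pairing Ω (volume.withDensityᵥ G) v = ∫ x in Ω, G x * v x := by
  have f1 := isFiniteMeasure_withDensity_ofReal hG.2
  have f2 := isFiniteMeasure_withDensity_ofReal hG.neg.2
  have hms := withDensity_ofReal_mutuallySingular (μ := (volume : Measure (Euc m))) hGm
  have hJ : SignedMeasure.toJordanDecomposition (volume.withDensityᵥ G) =
      @JordanDecomposition.mk _ _ (volume.withDensity fun x => ENNReal.ofReal (G x))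
        (volume.withDensity fun x => ENNReal.ofReal (-G x)) f1 f2 hms := by
    apply SignedMeasure.toJordanDecomposition_eq
    rw [withDensityᵥ_eq_withDensity_pos_part_sub_withDensity_neg_part hG]
    rfl
  have hbd : ∀ᵐ x ∂(volume.restrict Ω), ‖v x‖ ≤ M := by
    rw [ae_restrict_iff' hΩ]
    exact Eventually.of_forall hM
  have i1 : IntegrableOn (fun x => max (G x) 0 * v x) Ω := by
    have := (hG.pos_part.integrableOn (s := Ω))
    exact this.mul_bdd hv hbd
  have i2 : IntegrableOn (fun x => max (-G x) 0 * v x) Ω := by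
    have := (hG.neg.pos_part.integrableOn (s := Ω))
    exact this.mul_bdd hv hbd
  have hGm' : Measurable fun x => ENNReal.ofReal (-G x) := hGm.neg.ennreal_ofReal
  unfold pairing
  rw [hJ]
  simp only
  rw [setIntegral_withDensity_eq_setIntegral_toReal_smul hGm.ennreal_ofReal
      (Eventually.of_forall fun x => ENNReal.ofReal_lt_top) _ hΩ,
    setIntegral_withDensity_eq_setIntegral_toReal_smul hGm'
      (Eventually.of_forall fun x => ENNReal.ofReal_lt_top) _ hΩ]
  simp only [ENNReal.toReal_ofReal', smul_eq_mul]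
  rw [← integral_sub i1 i2]
  apply integral_congr_ae
  filter_upwards with x
  rcases le_total 0 (G x) with h | h
  · rw [max_eq_left h, max_eq_right (by linarith)]; ring
  · rw [max_eq_right h, max_eq_left (by linarith)]; ring

section main

variable {n : ℕ} {Ω : Set (Euc (n + 3))} {c : ℕ → Euc (n + 3)} {r : ℕ → ℝ} {δ : ℝ}

theorem uS_admissible (hO : IsOpen Ω) (hb : Bornology.IsBounded Ω) (h : IsPacking Ω c r δ) :
    uS c r ∈ Admissible Ω (fun _ => 0) := by
  refine ⟨h.lipschitz.locallyLipschitz.locallyLipschitzOn, ?_, ?_, ?_⟩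
  · obtain ⟨R, hR⟩ := hb.subset_closedBall 0
    refine ⟨|uS c r 0| + R, fun x hx => ?_⟩
    have h1 := h.lipschitz.dist_le_mul x 0
    rw [NNReal.coe_one, one_mul, Real.dist_eq] at h1
    have h2 : dist x 0 ≤ R := hR hx
    have h3 := abs_add_le (uS c r 0) (uS c r x - uS c r 0)
    rw [add_sub_cancel] at h3
    linarith
  · filter_upwards with x
    have := norm_fderiv_le_of_lipschitz ℝ h.lipschitz (x₀ := x)
    simpa using this
  · intro x hx v _
    have hx0 : uS c r x = 0 := by
      apply uS_out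
      intro i hi
      rw [hO.frontier_eq] at hx
      exact hx.2 (ball_sub h i hi)
    have h1 : Continuous fun s : ℝ => uS c r (x + s • v) :=
      h.lipschitz.continuous.comp (by fun_prop)
    have h2 := (h1.tendsto 0).mono_left (nhdsWithin_le_nhds (s := Ioi 0))
    simpa [hx0] using h2

/-- the key facts on the difference of the actions -/
theorem action_sub (hO : IsOpen Ω) (hb : Bornology.IsBounded Ω) (h : IsPacking Ω c r δ)
    (hδ : δ ≤ 1) {G : Euc (n + 3) → ℝ} (hGm : Measurable G) (hGi : Integrable G)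
    (hG : G =ᵐ[volume] GS c r) {v : Euc (n + 3) → ℝ} (hv : v ∈ Admissible Ω (fun _ => 0)) :
    IntegrableOn (fun x => gap (fderiv ℝ v x) (fderiv ℝ (uS c r) x) (XS c r x)) Ω ∧
    action Ω (volume.withDensityᵥ G) v - action Ω (volume.withDensityᵥ G) (uS c r) =
      ∫ x in Ω, gap (fderiv ℝ v x) (fderiv ℝ (uS c r) x) (XS c r x) := by
  have hu := uS_admissible hO hb h
  have hΩ := hO.measurableSet
  have hfin : IsFiniteMeasure (volume.restrict Ω) :=
    ⟨by rw [Measure.restrict_apply_univ]; exact hb.measure_lt_top⟩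
  -- facts for an arbitrary admissible function
  have key : ∀ w ∈ Admissible Ω (fun _ => 0),
      IntegrableOn (fun x => 1 - √(1 - ‖fderiv ℝ w x‖ ^ 2)) Ω ∧
      IntegrableOn (fun x => fderiv ℝ w x (XS c r x)) Ω ∧
      pairing Ω (volume.withDensityᵥ G) w = ∫ x in Ω, fderiv ℝ w x (XS c r x) := by
    intro w hw
    obtain ⟨hw1, ⟨M, hM⟩, hw3, _⟩ := hw
    have hwm : AEStronglyMeasurable w (volume.restrict Ω) :=
      hw1.continuousOn.aestronglyMeasurable hΩ
    refine ⟨?_, ?_, ?_⟩
    · have hm : Measurable fun x => 1 - √(1 - ‖fderiv ℝ w x‖ ^ 2) := by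
        have := (measurable_fderiv ℝ w).norm
        fun_prop
      apply Integrable.of_bound hm.aestronglyMeasurable 1
      filter_upwards with x
      have h1 : √(1 - ‖fderiv ℝ w x‖ ^ 2) ≤ 1 := by
        rw [Real.sqrt_le_one]
        have := sq_nonneg ‖fderiv ℝ w x‖
        linarith
      have h2 := Real.sqrt_nonneg (1 - ‖fderiv ℝ w x‖ ^ 2)
      rw [Real.norm_eq_abs, abs_le]
      constructor <;> linarith
    · apply Integrable.mono' (h.integrable_XS hδ).norm.integrableOn
      · exact (measurable_fderiv_apply w (h.integrable_XS hδ).1).mono_measure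
          Measure.restrict_le_self
      · filter_upwards [hw3] with x hx
        refine (ContinuousLinearMap.le_opNorm _ _).trans ?_
        calc ‖fderiv ℝ w x‖ * ‖XS c r x‖ ≤ 1 * ‖XS c r x‖ := by gcongr
          _ = ‖XS c r x‖ := one_mul _
    · rw [pairing_withDensity hΩ hGm hGi hwm hM]
      have h0 : ∫ x in Ω, GS c r x * w x = ∫ x, GS c r x * w x := by
        apply setIntegral_eq_integral_of_forall_compl_eq_zero
        intro x hx
        rw [GS_out fun i hi => hx (ball_sub h i hi), zero_mul]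
      have h1 : ∫ x in Ω, G x * w x = ∫ x, GS c r x * w x := by
        rw [← h0]
        apply integral_congr_ae
        filter_upwards [ae_restrict_of_ae hG] with x hx
        rw [hx]
      have h2 : ∫ x in Ω, fderiv ℝ w x (XS c r x) = ∫ x, fderiv ℝ w x (XS c r x) := by
        apply setIntegral_eq_integral_of_forall_compl_eq_zero
        intro x hx
        rw [XS_out fun i hi => hx (ball_sub h i hi), map_zero]
      rw [h1, h2]
      exact (h.weak hδ (L := 1) hw1 (by rwa [ae_restrict_iff' hΩ] at hw3) hM).symm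
  obtain ⟨a1, a2, a3⟩ := key v hv
  obtain ⟨b1, b2, b3⟩ := key _ hu
  have hI := (a1.sub b1).sub (a2.sub b2)
  have e : ∀ x, gap (fderiv ℝ v x) (fderiv ℝ (uS c r) x) (XS c r x) =
      ((1 - √(1 - ‖fderiv ℝ v x‖ ^ 2)) - (1 - √(1 - ‖fderiv ℝ (uS c r) x‖ ^ 2))) -
      (fderiv ℝ v x (XS c r x) - fderiv ℝ (uS c r) x (XS c r x)) := fun x => rfl
  refine ⟨hI, ?_⟩
  unfold action
  rw [a3, b3]
  simp_rw [e]
  have s1 := integral_sub (μ := volume.restrict Ω)
    (f := fun x => (1 - √(1 - ‖fderiv ℝ v x‖ ^ 2)) - (1 - √(1 - ‖fderiv ℝ (uS c r) x‖ ^ 2)))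
    (g := fun x => fderiv ℝ v x (XS c r x) - fderiv ℝ (uS c r) x (XS c r x))
    (a1.sub b1) (a2.sub b2)
  rw [s1, integral_sub a1 b1, integral_sub a2 b2]
  ring

end main

/-- **Main result.** Let `m ≥ 3` and let `Ω` be any bounded domain of `ℝ^m`. The zero function is a
boundary datum of the required class, and there is a finite signed measure, even one with an
integrable density `G`, for which the action has exactly one minimiser `u` and the light-segment
set of `u` has positive Lebesgue measure and infinite `(m-1)`-dimensional Hausdorff measure. -/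
theorem result (m : ℕ) (hm : 3 ≤ m) (Ω : Set (Euc m)) (hΩ : IsBoundedDomain Ω) :
    (fun _ => (0 : ℝ)) ∈ BoundaryClass Ω ∧
    ∃ G : Euc m → ℝ, Integrable G ∧ ∃ u : Euc m → ℝ,
      IsMinimiser Ω (fun _ => 0) (volume.withDensityᵥ G) u ∧
      (∀ v, IsMinimiser Ω (fun _ => 0) (volume.withDensityᵥ G) v → ∀ x ∈ Ω, v x = u x) ∧
      0 < volume (lightSet Ω u) ∧ μH[(m : ℝ) - 1] (lightSet Ω u) = ⊤ := by
  obtain ⟨n, rfl⟩ : ∃ n, m = n + 3 := ⟨m - 3, by omega⟩
  obtain ⟨hO, hconn, hb⟩ := hΩ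
  refine ⟨zero_mem_boundaryClass Ω, ?_⟩
  obtain ⟨δ, c, r, hδ0, hδ, h, hvol⟩ := exists_packing_volume (by omega) hO hconn.nonempty
  obtain ⟨G, hGm, hGi, hG⟩ := measurable_density (h.integrable_GS hδ)
  have hu := uS_admissible hO hb h
  have hΩm := hO.measurableSet
  have hgap : ∀ v ∈ Admissible Ω (fun _ => 0), ∀ᵐ x ∂(volume.restrict Ω),
      0 ≤ gap (fderiv ℝ v x) (fderiv ℝ (uS c r) x) (XS c r x) ∧
      (gap (fderiv ℝ v x) (fderiv ℝ (uS c r) x) (XS c r x) = 0 →
        fderiv ℝ v x = fderiv ℝ (uS c r) x) := by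
    intro v hv
    filter_upwards [hv.2.2.1, ae_restrict_of_ae h.gradient] with x hx hg
    obtain ⟨g, hg1, hg2, hg3⟩ := hg
    rw [hg2, hg3]
    exact ⟨gap_nonneg hx hg1, eq_of_gap_eq_zero hx hg1⟩
  refine ⟨G, hGi, uS c r, ⟨hu, fun v hv => ?_⟩, fun v hv => ?_, ?_⟩
  · have h1 := (action_sub hO hb h hδ hGm hGi hG hv).2
    have h2 : 0 ≤ ∫ x in Ω, gap (fderiv ℝ v x) (fderiv ℝ (uS c r) x) (XS c r x) := by
      apply integral_nonneg_of_ae
      filter_upwards [hgap v hv] with x hx
      exact hx.1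
    linarith
  · obtain ⟨hI, h1⟩ := action_sub hO hb h hδ hGm hGi hG hv.1
    have h2 := hv.2 _ hu
    have h3 : 0 ≤ᵐ[volume.restrict Ω]
        fun x => gap (fderiv ℝ v x) (fderiv ℝ (uS c r) x) (XS c r x) := by
      filter_upwards [hgap v hv.1] with x hx
      exact hx.1
    have h4 : ∫ x in Ω, gap (fderiv ℝ v x) (fderiv ℝ (uS c r) x) (XS c r x) = 0 :=
      le_antisymm (by linarith) (integral_nonneg_of_ae h3)
    have h5 := (integral_eq_zero_iff_of_nonneg_ae h3 hI).1 h4
    have h6 : ∀ᵐ x, x ∈ Ω → fderiv ℝ v x = fderiv ℝ (uS c r) x := by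
      rw [← ae_restrict_iff' hΩm]
      filter_upwards [h5, hgap v hv.1] with x hx hx'
      exact hx'.2 hx
    have h7 := const_of_ae_fderiv_eq hO hconn.isPreconnected hv.1.1 hu.1 h6
    have hne' : Ωᶜ.Nonempty := by
      rw [nonempty_compl]
      rintro rfl
      exact NormedSpace.unbounded_univ ℝ (Euc (n + 3)) hb
    obtain ⟨y, hy, d, hd⟩ := exists_accessible hO hconn.nonempty hne'
    have t1 := (hv.1.2.2.2 y hy d hd).sub (hu.2.2.2 y hy d hd)
    rw [sub_zero] at t1
    intro x hx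
    have t2 : Tendsto (fun s : ℝ => v (y + s • d) - uS c r (y + s • d)) (𝓝[>] 0)
        (𝓝 (v x - uS c r x)) := by
      apply tendsto_const_nhds.congr'
      filter_upwards [Ioo_mem_nhdsGT (zero_lt_one (α := ℝ))] with s hs
      exact h7 x hx _ (hd s hs)
    have := tendsto_nhds_unique t1 t2
    linarith
  · have h1 : (Ω \ ⋃ i ∈ {i | 0 < r i}, closedBall (c i) (r i)) ⊆ lightSet Ω (uS c r) := by
      rintro x ⟨hx, hx'⟩
      have h2 := h.dense x hx (fun i hi hxi => hx' (by
        rw [mem_iUnion₂]; exact ⟨i, hi, hxi⟩))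
      apply closure_mono _ h2
      rintro _ ⟨i, hi, rfl⟩
      obtain ⟨y, hy, hne, hseg, heq⟩ := h.light hi
      exact ⟨c i, ball_sub h ⟨i, hi⟩ (mem_ball_self hi), y, hy, hne, hseg, heq,
        left_mem_segment ℝ _ _⟩
    have h2 : 0 < volume (lightSet Ω (uS c r)) := lt_of_lt_of_le hvol (measure_mono h1)
    exact ⟨h2, hausdorff_top h2⟩

end Pool.Agent.Results.MP_2eaabb_an.LightSetPositiveMeasure
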